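import Pool.Agent.R210.U3

/-!
Interior regularity for the Navier-Stokes equations in a domain, without any boundary condition: at
an interior singular point the direction of the vorticity oscillates by a fixed amount at all small
scales and at all large values of the vorticity; this amount is estimated by the energy.
-/

set_option autoImplicit false

open MeasureTheory Set Metric
open H459R3.NS W221.NS

namespace Pool.Agent.T2H10.Held.InteriorVorticity

/-- The Euclidean length of a vector of `ℝ³`. -/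
noncomputable def len (a : V) : ℝ := Real.sqrt (∑ i, a i ^ 2)

/-- The curl of a vector field. -/
noncomputable def curl (v : V → V) (x : V) : V :=
  ![pd 1 (fun y => v y 2) x - pd 2 (fun y => v y 1) x,
    pd 2 (fun y => v y 0) x - pd 0 (fun y => v y 2) x,
    pd 0 (fun y => v y 1) x - pd 1 (fun y => v y 0) x]

/-- For some values `a`, `b` of `W` in `U` of length greater than `K` the unit vectors `a / |a|` and
`b / |b|` have distance greater than `δ` (the denominators are cleared). -/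
def Oscillates (W : V → V) (δ K : ℝ) (U : Set V) : Prop := ∃ x ∈ U, ∃ y ∈ U,
  K < len (W x) ∧ K < len (W y) ∧
    δ * (len (W x) * len (W y)) < len (len (W y) • W x - len (W x) • W y)

/-- The values `W(x)` at the points `x` of `U` with `|W(x)| > K` lie in a cone
`{a : a · e ≥ η |a|}`, where `e` is a unit vector. -/
def InCone (W : V → V) (η K : ℝ) (U : Set V) : Prop := ∃ e : V, len e = 1 ∧
  ∀ x ∈ U, K < len (W x) → η * len (W x) ≤ ∑ i, e i * W x i

/-- Some values of `W` in `U` of length greater than `K` form an angle with sine greater than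
`δ`. -/
def Turns (W : V → V) (δ K : ℝ) (U : Set V) : Prop := ∃ x ∈ U, ∃ y ∈ U,
  K < len (W x) ∧ K < len (W y) ∧
    δ * (len (W x) * len (W y)) < len (crossProduct (W x) (W y))

/-- For every `η > 0` there is a constant `c > 0` with the following property. Let `(u, p)` be a
smooth solution of the Navier-Stokes equations with viscosity `ν > 0` and force `f` in
`(0, T) × Ω` (no boundary condition is used), with energy at most `E ^ 2` and finite dissipation;
let `W` be the vorticity of `u` and `ξ = W / |W|`. Let `x₀ ∈ Ω` be a point which is singular at the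
time `T` (`u` is unbounded in every neighbourhood of `(T, x₀)`).

* There is `δ > 0` such that for all `K`, all `r > 0` and all `T₁ < T` there is a set of positive
  measure of times `t ∈ (T₁, T)` for which there are `x, y ∈ ball x₀ r` with
  `|W(x)|, |W(y)| > K` and `|ξ(x) - ξ(y)| > δ`.
* If `0 < r₀`, `closedBall x₀ r₀ ⊆ Ω`, `K ≥ 0`, `0 ≤ δ ≤ 1 / 8` and
  `δ (E / √r₀ + K r₀ ^ 2) ≤ c ν`, then for all `K₁`, all `r > 0` and all `T₁ < T` there is a set of
  positive measure of times `t ∈ (T₁, T)` for which either the values of `W` in `ball x₀ r₀` with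
  `|W| > K` lie in no cone `{a : a · e ≥ η |a|}`, `|e| = 1`, or there are `x, y ∈ ball x₀ r` with
  `|W(x)|, |W(y)| > K₁` such that the sine of the angle between `W(x)` and `W(y)` is greater than
  `δ`. -/
theorem result {η : ℝ} (hη : 0 < η) : ∃ c : ℝ, 0 < c ∧
    ∀ (ν T E F : ℝ) (Ω : Set V) (u : ℝ → V → V) (p : ℝ → V → ℝ) (f : ℝ → V → V),
      OSolF ν T E F Ω u p f → 0 < ν → 0 < T → 0 ≤ E →
      ∫⁻ t in Ioo 0 T, ∫⁻ y in Ω, ENNReal.ofReal (gsq (u t) y) ≠ ⊤ →
      ∀ x₀ ∈ Ω, Sing T u x₀ →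
        (∃ δ : ℝ, 0 < δ ∧ ∀ K r T₁ : ℝ, 0 < r → T₁ < T →
          ∃ᵐ t ∂(volume.restrict (Ioo T₁ T)), Oscillates (curl (u t)) δ K (ball x₀ r)) ∧
        ∀ r₀ K δ : ℝ, 0 < r₀ → closedBall x₀ r₀ ⊆ Ω → 0 ≤ K → 0 ≤ δ → δ ≤ 1 / 8 →
          δ * (E / Real.sqrt r₀ + K * r₀ ^ 2) ≤ c * ν →
          ∀ K₁ r T₁ : ℝ, 0 < r → T₁ < T → ∃ᵐ t ∂(volume.restrict (Ioo T₁ T)),
            ¬ InCone (curl (u t)) η K (ball x₀ r₀) ∨ Turns (curl (u t)) δ K₁ (ball x₀ r) := by
  obtain ⟨c, hc, H⟩ := Pool.Agent.R210.sing_expl hη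
  refine ⟨c, hc, fun ν T E F Ω u p f h hν hT hE hfin x₀ hx₀ hS => ⟨?_, ?_⟩⟩
  · obtain ⟨δ, hδ, H'⟩ := Pool.Agent.R210.sing_osc hν h hfin hx₀ hT hS
    refine ⟨δ, hδ, fun K r T₁ hr hT₁ hcon => H' K r T₁ hr hT₁ ?_⟩
    filter_upwards [hcon] with t ht
    intro x hx y hy h1 h2
    rw [Real.rpow_zero, mul_one]
    by_contra h3
    exact ht ⟨x, hx, y, hy, h1, h2, not_le.1 h3⟩
  · intro r₀ K δ hr₀ hΩ hK hδ0 hδ8 hδ K₁ r T₁ hr hT₁ hcon
    refine H hν hT hE h hfin hS hr₀ hΩ hK hδ0 hδ8 hδ K₁ r T₁ hr hT₁ ?_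
    filter_upwards [hcon] with t ht
    push Not at ht
    refine ⟨ht.1, fun x hx y hy h1 h2 => ?_⟩
    by_contra h3
    exact ht.2 ⟨x, hx, y, hy, h1, h2, not_le.1 h3⟩

end Pool.Agent.T2H10.Held.InteriorVorticity
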