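import Pool.Agent.Y303.NF.Pub
import Pool.Agent.W52.TQ.Univ
import Pool.Agent.W52.TQ.Loc
import Pool.Agent.W503.TQ.Uni

/-!
# Global strong solutions for large data with an `n`-fold rotational symmetry

Let `Ω` be a bounded open set which is at the distance at least `ρ > 0` from the third coordinate
axis, is contained in the cylinder of radius `R` around it, and is invariant under the rotation by
`2π/n`. If the data are invariant under this rotation, then the smallness condition for the global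
existence of a strong solution contains the data only divided by powers of `n`: data of arbitrary
size are admissible if `n` is large. The mean over the rotations (a flow with rotational symmetry,
with swirl, of arbitrary size) is controlled as in the two-dimensional case, and the rest has only
high angular frequencies.
-/

set_option autoImplicit false

open MeasureTheory Set
open scoped InnerProductSpace ENNReal ContDiff

namespace Pool.Agent.Results.MP_fd8964_an.NFoldSymmetric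

open H772R2.NS.Pub Pool.Agent.W795.TQ
open Pool.Agent.Y303.NF (rot axisSq IsInvariant IsInvariantForce)

/-- Let `Ω` be a bounded open set with `ρ² ≤ x₀² + x₁² ≤ R²` for all `x ∈ Ω`, invariant under the
rotation by `2π/n` around the third axis, let `ν > 0`, let `I` be a set of positive times, and let
the force be given by `⟨f(t), φ⟩ = (F(t), ∇φ)` with `F ∈ H¹(0,T; L²)` for all `T ∈ I`. Let
`u₀ ∈ V` with gradient `z₀`, let the initial acceleration `g₀` be in `L²`, and let `u₀` and the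
force be invariant under the rotation by `2π/n`. If for all `T ∈ I`
`‖u₀‖² + ν⁻¹ ∫₀ᵀ ‖F‖² ≤ E²`, `‖F(t)‖ ≤ Φ` for `t ≤ T`, `17 ‖g₀‖² + ν⁻¹ ∫₀ᵀ ‖F'‖² ≤ B²`, and
`432 R² E² (Φ² + 2 ν E B exp (E² / (π ρ ν²) + 1/2)) ≤ n² ρ² ν⁶`,
then there is `u` with `u(0) = u₀` which for all `T ∈ I` is a strong solution on `[0,T]` and is
equal to each Leray-Hopf solution on `[0,T]` with the same data. -/
theorem result :
    ∀ (Ω : Set R3), IsOpen Ω → Bornology.IsBounded Ω →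
    ∀ (ρ R : ℝ), 0 < ρ → 0 < R → (∀ x : R3, x ∈ Ω → ρ ^ 2 ≤ axisSq x ∧ axisSq x ≤ R ^ 2) →
    ∀ n : ℕ, 0 < n → (∀ x : R3, x ∈ Ω → rot (2 * Real.pi / n) x ∈ Ω) →
    ∀ ν : ℝ, 0 < ν → ∀ I : Set ℝ, (∀ T ∈ I, 0 < T) →
    ∀ F F' : ℝ → L2 Ω Mat, (∀ T ∈ I, IsH1 T F F') →
    (∀ T ∈ I, ∀ t ∈ Icc 0 T, IsInvariantForce (2 * Real.pi / n) (F t)) →
    ∀ (u0 g0 : L2 Ω R3) (z0 : L2 Ω Mat), (u0, z0) ∈ H1graph Ω →
    IsInvariant (2 * Real.pi / n) u0 →
    (∀ φ, IsTest Ω φ → rhs ν u0 z0 (F 0) φ = ∫ x in Ω, ⟪g0.fn x, φ x⟫_ℝ) →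
    ∀ E Φ B : ℝ, 0 ≤ E → 0 < B →
    (∀ T ∈ I, ‖u0‖ ^ 2 + (∫ s in (0 : ℝ)..T, ‖F s‖ ^ 2) / ν ≤ E ^ 2) →
    (∀ T ∈ I, ∀ t ∈ Icc 0 T, ‖F t‖ ≤ Φ) →
    (∀ T ∈ I, 17 * ‖g0‖ ^ 2 + (∫ s in (0 : ℝ)..T, ‖F' s‖ ^ 2) / ν ≤ B ^ 2) →
    432 * R ^ 2 * E ^ 2 * (Φ ^ 2 + 2 * ν * E * (B * Real.exp (E ^ 2 / (Real.pi * ρ * ν ^ 2)
      + 1 / 2))) ≤ n ^ 2 * ρ ^ 2 * ν ^ 6 →
    ∃ (u u' : ℝ → L2 Ω R3) (G G' : ℝ → L2 Ω Mat), u 0 = u0 ∧
      ∀ T ∈ I, IsStrong Ω ν T F u u' G G' ∧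
        ∀ (w : ℝ → L2 Ω R3) (D : ℝ → L2 Ω Mat), IsLerayHopf Ω ν T F w D →
          w 0 = u0 → ∀ t ∈ Icc 0 T, w t = u t := by
  intro Ω hΩ hb ρ R hρ hR hsub n hn hrot ν hν I hI F F' hF hFs u0 g0 z0 h0 hu0 hg E Φ B hE0 hB0
    hE hΦ hB hcond
  obtain ⟨u, u', G, G', h1, h2⟩ := Pool.Agent.Y303.NF.nf_mid2
    Pool.Agent.W52.TQ.proof_loc Pool.Agent.W503.TQ.proof_uni (Ω := Ω)
    hΩ hb hρ hR hsub hn hrot hν hI (F := F) (F1 := F')
    (fun T hT => ⟨(hF T hT).memLp, (hF T hT).prim⟩) hFs (u0 := u0) (g0 := g0) (z0 := z0)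
    (mem_pub.mpr h0) hu0
    (fun φ hφ => hg φ ((isTest_iff φ).mpr hφ)) hE0 hB0 hE hΦ hB hcond
  refine ⟨u, u', G, G', h1, fun T hT => ⟨(h2 T hT).1, ?_⟩⟩
  intro w D L hw
  exact (h2 T hT).2 w D L.meas (by
    filter_upwards [L.grad] with t ht
    exact mem_pub.mpr ht) L.gradL2
    (fun φ hφ t ht => L.eqn φ ((isTest_iff φ).mpr hφ) t ht) L.energy hw

end Pool.Agent.Results.MP_fd8964_an.NFoldSymmetric
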